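import Pool.Agent.Helper18.NF.Defs

/-!
# Project NF: the tent function
-/

set_option autoImplicit false

open Finset Filter Topology

namespace Pool.Agent.Helper67.NF

open Pool.Agent.Helper18.NF

theorem log_lip {y z : ℝ} (hy : 1 ≤ y) (hz : 1 ≤ z) : |Real.log y - Real.log z| ≤ |y - z| := by
  wlog h : z ≤ y generalizing y z
  · rw [abs_sub_comm, abs_sub_comm y z]
    exact this hz hy (le_of_not_ge h)
  have hz0 : 0 < z := by linarith
  have hy0 : 0 < y := by linarith
  rw [abs_of_nonneg (sub_nonneg.2 (Real.log_le_log hz0 h)), abs_of_nonneg (sub_nonneg.2 h)]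
  rw [← Real.log_div hy0.ne' hz0.ne']
  have h1 := Real.log_le_sub_one_of_pos (show 0 < y / z by positivity)
  have h2 : y / z - 1 ≤ y - z := by
    rw [div_sub_one hz0.ne', div_le_iff₀ hz0]
    nlinarith
  linarith

theorem tent_nonneg (y : ℝ) : 0 ≤ tent y := le_max_left _ _

theorem tent_le_one (y : ℝ) : tent y ≤ 1 := by
  unfold tent
  apply max_le (by norm_num)
  have := abs_nonneg (Real.logb 2 (max y 1) - 1)
  linarith

theorem tent_zero_of_le {y : ℝ} (h : y ≤ 1) : tent y = 0 := by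
  unfold tent
  rw [max_eq_right h, Real.logb_one]
  norm_num

theorem tent_of_ge {y : ℝ} (h : 1 ≤ y) : tent y = max 0 (1 - |Real.logb 2 y - 1|) := by
  unfold tent
  rw [max_eq_left h]

theorem tent_zero_of_ge {y : ℝ} (h : 4 ≤ y) : tent y = 0 := by
  rw [tent_of_ge (by linarith)]
  have h1 : 2 ≤ Real.logb 2 y := by
    rw [Real.le_logb_iff_rpow_le (by norm_num) (by linarith)]
    have : (2 : ℝ) ^ (2 : ℝ) = 4 := by
      rw [Real.rpow_two]; norm_num
    rw [this]; exact h
  apply max_eq_left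
  rw [abs_of_nonneg (by linarith)]
  linarith

theorem tent_lip {y z : ℝ} (hy : 1 ≤ y) (hz : 1 ≤ z) : |tent y - tent z| ≤ 2 * |y - z| := by
  rw [tent_of_ge hy, tent_of_ge hz]
  have h1 : |Real.logb 2 y - Real.logb 2 z| ≤ 2 * |y - z| := by
    unfold Real.logb
    rw [← sub_div, abs_div, abs_of_pos (Real.log_pos (by norm_num : (1 : ℝ) < 2)),
      div_le_iff₀ (Real.log_pos (by norm_num))]
    have h2 := log_lip hy hz
    have h3 := Real.log_two_gt_d9
    nlinarith [abs_nonneg (y - z)]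
  refine le_trans ?_ h1
  have h4 : |max 0 (1 - |Real.logb 2 y - 1|) - max 0 (1 - |Real.logb 2 z - 1|)| ≤
      |(1 - |Real.logb 2 y - 1|) - (1 - |Real.logb 2 z - 1|)| := by
    rw [max_comm 0, max_comm 0]
    exact abs_max_sub_max_le_abs _ _ _
  refine h4.trans ?_
  have h5 : (1 - |Real.logb 2 y - 1|) - (1 - |Real.logb 2 z - 1|) =
      |Real.logb 2 z - 1| - |Real.logb 2 y - 1| := by ring
  rw [h5]
  refine (abs_abs_sub_abs_le _ _).trans ?_
  rw [abs_sub_comm]
  apply le_of_eq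
  congr 1
  ring

/-- the tents sum to one -/
theorem tent_sum {k : ℕ} (hk : 2 ≤ k) {J : ℕ} (hJ : k < 2 ^ J) :
    ∑ j ∈ range J, tent ((k : ℝ) / 2 ^ j) = 1 := by
  obtain ⟨i, hi⟩ : ∃ i, Nat.log 2 k = i + 1 := by
    have : 1 ≤ Nat.log 2 k := Nat.log_pos (by norm_num) hk
    exact ⟨Nat.log 2 k - 1, by omega⟩
  have h1 : 2 ^ (i + 1) ≤ k := by
    rw [← hi]; exact Nat.pow_log_le_self 2 (by omega)
  have h2 : k < 2 ^ (i + 2) := by
    have := Nat.lt_pow_succ_log_self (b := 2) (by norm_num) k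
    rw [hi] at this; exact this
  have h1' : (2 : ℝ) ^ (i + 1) ≤ k := by exact_mod_cast h1
  have h2' : (k : ℝ) < 2 ^ (i + 2) := by exact_mod_cast h2
  have hiJ : i + 1 < J := by
    have : 2 ^ (i + 1) < 2 ^ J := lt_of_le_of_lt h1 hJ
    exact (Nat.pow_lt_pow_iff_right (by norm_num)).1 this
  have hk0 : (0 : ℝ) < k := by exact_mod_cast (by omega : 0 < k)
  rw [Finset.sum_eq_add_of_mem i (i + 1) (mem_range.2 (by omega)) (mem_range.2 hiJ) (by omega)]
  · have hp : (0 : ℝ) < 2 ^ i := by positivity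
    have ha1 : (1 : ℝ) ≤ k / 2 ^ (i + 1) := by
      rw [le_div_iff₀ (by positivity), one_mul]; exact h1'
    have ha2 : (k : ℝ) / 2 ^ (i + 1) ≤ 2 := by
      rw [div_le_iff₀ (by positivity)]
      have : (2 : ℝ) ^ (i + 2) = 2 * 2 ^ (i + 1) := by ring
      linarith
    have hb : (k : ℝ) / 2 ^ i = 2 * (k / 2 ^ (i + 1)) := by
      rw [pow_succ]; field_simp
    set a := (k : ℝ) / 2 ^ (i + 1) with ha
    rw [hb, tent_of_ge (by linarith), tent_of_ge ha1, Real.logb_mul (by norm_num) (by linarith),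
      Real.logb_self_eq_one (by norm_num)]
    have hv0 : 0 ≤ Real.logb 2 a := Real.logb_nonneg (by norm_num) ha1
    have hv1 : Real.logb 2 a ≤ 1 := by
      rw [Real.logb_le_iff_le_rpow (by norm_num) (by linarith), Real.rpow_one]
      exact ha2
    rw [show 1 + Real.logb 2 a - 1 = Real.logb 2 a by ring, abs_of_nonneg hv0,
      abs_of_nonpos (by linarith), max_eq_right (by linarith), max_eq_right (by linarith)]
    ring
  · rintro j hj ⟨hj1, hj2⟩
    rcases Nat.lt_or_ge j i with h3 | h3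
    · apply tent_zero_of_ge
      rw [le_div_iff₀ (by positivity)]
      have : (2 : ℝ) ^ (j + 2) ≤ 2 ^ (i + 1) := pow_le_pow_right₀ (by norm_num) (by omega)
      have h4 : (4 : ℝ) * 2 ^ j = 2 ^ (j + 2) := by ring
      linarith
    · apply tent_zero_of_le
      rw [div_le_iff₀ (by positivity), one_mul]
      have : (2 : ℝ) ^ (i + 2) ≤ 2 ^ j := pow_le_pow_right₀ (by norm_num) (by omega)
      linarith

/-- bounded and Lipschitz on `[1, 4]` -/
structure LB (f : ℝ → ℝ) (b l : ℝ) : Prop where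
  b0 : 0 ≤ b
  l0 : 0 ≤ l
  bd : ∀ y ∈ Set.Icc (1 : ℝ) 4, |f y| ≤ b
  lip : ∀ y ∈ Set.Icc (1 : ℝ) 4, ∀ z ∈ Set.Icc (1 : ℝ) 4, |f y - f z| ≤ l * |y - z|

theorem LB.mul {f g : ℝ → ℝ} {b l b' l' : ℝ} (hf : LB f b l) (hg : LB g b' l') :
    LB (fun y => f y * g y) (b * b') (b * l' + l * b') where
  b0 := mul_nonneg hf.b0 hg.b0
  l0 := add_nonneg (mul_nonneg hf.b0 hg.l0) (mul_nonneg hf.l0 hg.b0)
  bd := by
    intro y hy
    rw [abs_mul]
    exact mul_le_mul (hf.bd y hy) (hg.bd y hy) (abs_nonneg _) hf.b0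
  lip := by
    intro y hy z hz
    have h1 : f y * g y - f z * g z = f y * (g y - g z) + (f y - f z) * g z := by ring
    rw [h1]
    refine (abs_add_le _ _).trans ?_
    rw [abs_mul, abs_mul, add_mul]
    apply add_le_add
    · rw [mul_assoc]
      exact mul_le_mul (hf.bd y hy) (hg.lip y hy z hz) (abs_nonneg _) hf.b0
    · rw [mul_assoc, mul_comm b', ← mul_assoc]
      exact mul_le_mul (hf.lip y hy z hz) (hg.bd z hz) (abs_nonneg _)
        (mul_nonneg hf.l0 (abs_nonneg _))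

theorem LB_tent : LB tent 1 2 where
  b0 := by norm_num
  l0 := by norm_num
  bd := fun y _ => by rw [abs_of_nonneg (tent_nonneg y)]; exact tent_le_one y
  lip := fun y hy z hz => tent_lip hy.1 hz.1

theorem LB_inv : LB (fun y => y⁻¹) 1 1 where
  b0 := by norm_num
  l0 := by norm_num
  bd := by
    intro y hy
    rw [abs_of_nonneg (inv_nonneg.2 (by linarith [hy.1]))]
    exact inv_le_one_of_one_le₀ hy.1
  lip := by
    intro y hy z hz
    have hy0 : 0 < y := by linarith [hy.1]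
    have hz0 : 0 < z := by linarith [hz.1]
    have h1 : y⁻¹ - z⁻¹ = (z - y) / (y * z) := by
      field_simp
    rw [h1, abs_div, abs_of_pos (mul_pos hy0 hz0), one_mul, abs_sub_comm,
      div_le_iff₀ (mul_pos hy0 hz0)]
    have h2 : 1 ≤ y * z := by nlinarith [hy.1, hz.1]
    nlinarith [abs_nonneg (y - z)]

/-- from `[1, 4]` to a test function -/
theorem LB.isTest {f : ℝ → ℝ} {b l : ℝ} (hf : LB f b l) (h1 : ∀ y, y ≤ 1 → f y = 0)
    (h4 : ∀ y, 4 ≤ y → f y = 0) : IsTest l (fun y => (f y : ℂ)) where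
  lip := by
    have key : ∀ y, f y = f (max 1 (min y 4)) := by
      intro y
      rcases le_total y 1 with h | h
      · rw [min_eq_left (by linarith), max_eq_left h, h1 y h, h1 1 le_rfl]
      · rcases le_total y 4 with h' | h'
        · rw [min_eq_left h', max_eq_right h]
        · rw [min_eq_right h', max_eq_right (by norm_num), h4 y h', h4 4 le_rfl]
    intro y z
    rw [← Complex.ofReal_sub, Complex.norm_real, Real.norm_eq_abs, key y, key z]
    have hmem : ∀ y : ℝ, max 1 (min y 4) ∈ Set.Icc (1 : ℝ) 4 := fun y =>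
      ⟨le_max_left _ _, max_le (by norm_num) (min_le_right _ _)⟩
    refine (hf.lip _ (hmem y) _ (hmem z)).trans ?_
    apply mul_le_mul_of_nonneg_left _ hf.l0
    rw [max_comm 1, max_comm 1]
    refine (abs_max_sub_max_le_abs _ _ _).trans ?_
    refine (abs_min_sub_min_le_max _ _ _ _).trans ?_
    simp
  supp := by
    rintro y (h | h)
    · rw [h1 y h]; simp
    · rw [h4 y h]; simp

/-- geometric tails -/
theorem geom_tail {n : ℕ} (hn : 1 ≤ n) {y0 : ℝ} (hy0 : 0 < y0) (J : ℕ) :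
    ∑ j ∈ (range J).filter (fun j => y0 < 2 ^ j), ((2 : ℝ) ^ (-(1 / (n : ℝ)))) ^ j ≤
      y0 ^ (-(1 / (n : ℝ))) / (1 - (2 : ℝ) ^ (-(1 / (n : ℝ)))) := by
  set θ : ℝ := (2 : ℝ) ^ (-(1 / (n : ℝ))) with hθ
  have hn0 : (0 : ℝ) < n := by exact_mod_cast hn
  have hθ0 : 0 < θ := by positivity
  have hθ1 : θ < 1 := Real.rpow_lt_one_of_one_lt_of_neg (by norm_num) (by
    have : 0 < 1 / (n : ℝ) := by positivity
    linarith)
  classical
  have hex : ∃ j : ℕ, y0 < 2 ^ j := pow_unbounded_of_one_lt y0 (by norm_num)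
  set j0 := Nat.find hex with hj0
  have h0 : y0 < 2 ^ j0 := Nat.find_spec hex
  have h1 : ∑ j ∈ (range J).filter (fun j => y0 < 2 ^ j), θ ^ j ≤
      ∑ j ∈ Ico j0 (j0 + J), θ ^ j := by
    apply Finset.sum_le_sum_of_subset_of_nonneg
    · intro j hj
      rw [mem_filter, mem_range] at hj
      rw [mem_Ico]
      exact ⟨Nat.find_min' hex hj.2, by omega⟩
    · intro j _ _
      positivity
  refine h1.trans ?_
  rw [Finset.sum_Ico_eq_sum_range, Nat.add_sub_cancel_left]
  have h2 : ∑ k ∈ range J, θ ^ (j0 + k) = θ ^ j0 * ∑ k ∈ range J, θ ^ k := by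
    rw [Finset.mul_sum]
    exact Finset.sum_congr rfl fun k _ => pow_add _ _ _
  rw [h2, div_eq_mul_inv]
  apply mul_le_mul
  · have h3 : θ ^ j0 = ((2 : ℝ) ^ j0) ^ (-(1 / (n : ℝ))) := by
      rw [hθ, ← Real.rpow_natCast, ← Real.rpow_natCast, ← Real.rpow_mul (by norm_num),
        ← Real.rpow_mul (by norm_num), mul_comm]
    rw [h3]
    apply Real.rpow_le_rpow_of_nonpos hy0 h0.le
    have : 0 < 1 / (n : ℝ) := by positivity
    linarith
  · rw [← tsum_geometric_of_lt_one hθ0.le hθ1]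
    exact (summable_geometric_of_lt_one hθ0.le hθ1).sum_le_tsum _ (fun i _ => by positivity)
  · positivity
  · positivity

end Pool.Agent.Helper67.NF
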