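import Pool.Agent.Helper18.NF.StN
import Pool.Agent.TP.PrimeSum

/-!
# Project NF: the mean value of the number of ideals with a Lipschitz weight
-/

set_option autoImplicit false

open Finset Filter Topology NumberField MeasureTheory

namespace Pool.Agent.Helper67.NF

open Pool.Agent.Helper18.NF
open Pool.TP (idc)

/-- summation by parts -/
theorem abel_sum (E : ℕ → ℂ) (f : ℕ → ℂ) (hE : E 0 = 0) (K : ℕ) :
    ∑ m ∈ range K, (E (m + 1) - E m) * f (m + 1) =
      E K * f K - ∑ m ∈ range K, E m * (f (m + 1) - f m) := by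
  induction K with
  | zero => simp [hE]
  | succ K ih =>
    rw [Finset.sum_range_succ, Finset.sum_range_succ, ih]
    ring

theorem small_error {R : ℕ → ℝ} {κ : ℝ} (h : Tendsto (fun n : ℕ => R n / n) atTop (𝓝 κ))
    {ε : ℝ} (hε : 0 < ε) : ∃ C : ℝ, 0 ≤ C ∧ ∀ m : ℕ, |R m - κ * m| ≤ ε * m + C := by
  obtain ⟨m0, hm0⟩ := Metric.tendsto_atTop.1 h ε hε
  refine ⟨∑ m ∈ range (m0 + 1), |R m - κ * m|, Finset.sum_nonneg fun _ _ => abs_nonneg _, ?_⟩
  intro m
  rcases Nat.lt_or_ge m (m0 + 1) with h1 | h1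
  · have h2 : |R m - κ * m| ≤ ∑ m ∈ range (m0 + 1), |R m - κ * m| :=
      Finset.single_le_sum (f := fun m : ℕ => |R m - κ * m|) (fun _ _ => abs_nonneg _)
        (mem_range.2 h1)
    have h3 : 0 ≤ ε * (m : ℝ) := by positivity
    linarith
  · have hm : (0 : ℝ) < m := by exact_mod_cast (by omega : 0 < m)
    have h2 := hm0 m (by omega)
    rw [Real.dist_eq] at h2
    have h3 : R m - κ * m = (R m / m - κ) * m := by
      field_simp
    rw [h3, abs_mul, abs_of_pos hm]
    have h4 : |R m / m - κ| * m ≤ ε * m := mul_le_mul_of_nonneg_right h2.le hm.le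
    have h5 : 0 ≤ ∑ m ∈ range (m0 + 1), |R m - κ * m| := Finset.sum_nonneg fun _ _ => abs_nonneg _
    linarith

theorem isTest_cont {B : ℝ} {G : ℝ → ℂ} (h : IsTest B G) : Continuous G := by
  have hB : 0 ≤ B := by
    have h1 := h.lip 1 0
    have h2 := (norm_nonneg _).trans h1
    simpa using h2
  have : LipschitzWith ⟨B, hB⟩ G := LipschitzWith.of_dist_le_mul fun y z => by
    rw [dist_eq_norm, Real.dist_eq]
    exact h.lip y z
  exact this.continuous

theorem isTest_B {B : ℝ} {G : ℝ → ℂ} (h : IsTest B G) : 0 ≤ B := by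
  have h1 := h.lip 1 0
  have h2 := (norm_nonneg _).trans h1
  simpa using h2

theorem isTest_integral {B : ℝ} {G : ℝ → ℂ} (h : IsTest B G) :
    ∫ y, G y = ∫ y in (0 : ℝ)..4, G y := by
  rw [intervalIntegral.integral_of_le (by norm_num)]
  symm
  apply setIntegral_eq_integral_of_forall_compl_eq_zero
  intro y hy
  apply h.supp
  by_contra h1
  push Not at h1
  exact hy ⟨by linarith [h1.1], h1.2.le⟩

/-- Riemann sums -/
theorem riemann {B : ℝ} {G : ℝ → ℂ} (h : IsTest B G) {N : ℕ} (hN : 1 ≤ N) :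
    ‖(∑ m ∈ range (4 * N), G (((m + 1 : ℕ) : ℝ) / N)) / N - ∫ y, G y‖ ≤ 4 * B / N := by
  have hN0 : (0 : ℝ) < N := by exact_mod_cast hN
  have hc := isTest_cont h
  have hB := isTest_B h
  have h1 : ∑ m ∈ range (4 * N), ∫ y in ((m : ℝ) / N)..(((m + 1 : ℕ) : ℝ) / N), G y =
      ∫ y, G y := by
    rw [isTest_integral h]
    have := intervalIntegral.sum_integral_adjacent_intervals (f := G) (μ := volume)
      (a := fun m : ℕ => (m : ℝ) / N) (n := 4 * N) (fun k _ => hc.intervalIntegrable _ _)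
    rw [this]
    congr 1
    · simp
    · push_cast
      field_simp
  rw [← h1]
  have h2 : (∑ m ∈ range (4 * N), G (((m + 1 : ℕ) : ℝ) / N)) / N =
      ∑ m ∈ range (4 * N), ∫ _y in ((m : ℝ) / N)..(((m + 1 : ℕ) : ℝ) / N),
        G (((m + 1 : ℕ) : ℝ) / N) := by
    rw [Finset.sum_div]
    refine Finset.sum_congr rfl fun m _ => ?_
    rw [intervalIntegral.integral_const]
    have h3 : ((m + 1 : ℕ) : ℝ) / N - (m : ℝ) / N = 1 / N := by
      push_cast
      ring
    rw [h3, Complex.real_smul]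
    push_cast
    ring
  rw [h2, ← Finset.sum_sub_distrib]
  have h4 : ∀ m ∈ range (4 * N), ‖(∫ _y in ((m : ℝ) / N)..(((m + 1 : ℕ) : ℝ) / N),
        G (((m + 1 : ℕ) : ℝ) / N)) - ∫ y in ((m : ℝ) / N)..(((m + 1 : ℕ) : ℝ) / N), G y‖ ≤
      B / N * (1 / N) := by
    intro m _
    rw [← intervalIntegral.integral_sub intervalIntegrable_const (hc.intervalIntegrable _ _)]
    have h3 : ((m + 1 : ℕ) : ℝ) / N - (m : ℝ) / N = 1 / N := by
      push_cast
      ring
    have h5 : |((m + 1 : ℕ) : ℝ) / N - (m : ℝ) / N| = 1 / N := by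
      rw [h3, abs_of_pos (by positivity)]
    rw [← h5]
    apply intervalIntegral.norm_integral_le_of_norm_le_const
    intro y hy
    refine (h.lip _ _).trans ?_
    have h6 : (m : ℝ) / N ≤ ((m + 1 : ℕ) : ℝ) / N := by
      have : 0 < 1 / (N : ℝ) := by positivity
      linarith
    rw [Set.uIoc_of_le h6] at hy
    have h7 : |((m + 1 : ℕ) : ℝ) / N - y| ≤ 1 / N := by
      rw [abs_of_nonneg (by linarith [hy.2])]
      linarith [hy.1]
    calc B * |((m + 1 : ℕ) : ℝ) / N - y| ≤ B * (1 / N) := mul_le_mul_of_nonneg_left h7 hB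
      _ = B / N := by ring
  refine (norm_sum_le _ _).trans ((Finset.sum_le_sum h4).trans (le_of_eq ?_))
  rw [Finset.sum_const, card_range, nsmul_eq_mul]
  push_cast
  field_simp

/-- mean values with a Lipschitz weight -/
theorem avg {w : ℕ → ℝ} {κ : ℝ}
    (hw : Tendsto (fun n : ℕ => (∑ k ∈ Icc 1 n, w k) / (n : ℝ)) atTop (𝓝 κ))
    {B : ℝ} {G : ℝ → ℂ} (h : IsTest B G) :
    Tendsto (fun N : ℕ => (∑ m ∈ Icc 1 (4 * N), (w m : ℂ) * G (m / N)) / N) atTop
      (𝓝 (κ * ∫ y, G y)) := by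
  have hB := isTest_B h
  set R : ℕ → ℝ := fun n => ∑ k ∈ Icc 1 n, w k with hR
  have hR1 : ∀ m : ℕ, R (m + 1) = R m + w (m + 1) := by
    intro m
    simp only [hR]
    rw [Finset.sum_Icc_succ_top (by omega)]
  have hR0 : R 0 = 0 := by simp [hR]
  -- reindex
  have hre : ∀ (u : ℕ → ℂ) (K : ℕ), ∑ m ∈ Icc 1 K, u m = ∑ m ∈ range K, u (m + 1) := by
    intro u K
    rw [Finset.range_eq_Ico, Finset.sum_Ico_add' u 0 K 1]
    rfl
  set E : ℕ → ℂ := fun m => ((R m - κ * m : ℝ) : ℂ) with hE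
  have hE0 : E 0 = 0 := by simp [hE, hR0]
  have hE1 : ∀ m : ℕ, E (m + 1) - E m = (w (m + 1) : ℂ) - κ := by
    intro m
    simp only [hE]
    rw [hR1 m]
    push_cast
    ring
  have hsplit : ∀ N : ℕ, (∑ m ∈ Icc 1 (4 * N), (w m : ℂ) * G (m / N)) / N =
      (∑ m ∈ range (4 * N), (E (m + 1) - E m) * G (((m + 1 : ℕ) : ℝ) / N)) / N +
        κ * ((∑ m ∈ range (4 * N), G (((m + 1 : ℕ) : ℝ) / N)) / N) := by
    intro N
    rw [hre, ← mul_div_assoc, ← add_div, Finset.mul_sum, ← Finset.sum_add_distrib]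
    congr 1
    refine Finset.sum_congr rfl fun m _ => ?_
    rw [hE1 m]
    ring
  have hlim2 : Tendsto (fun N : ℕ => (κ : ℂ) *
      ((∑ m ∈ range (4 * N), G (((m + 1 : ℕ) : ℝ) / N)) / N)) atTop (𝓝 (κ * ∫ y, G y)) := by
    apply Tendsto.const_mul
    rw [tendsto_iff_norm_sub_tendsto_zero]
    have h0 : Tendsto (fun N : ℕ => 4 * B / (N : ℝ)) atTop (𝓝 0) :=
      tendsto_const_div_atTop_nhds_zero_nat _
    refine squeeze_zero' (Eventually.of_forall fun _ => norm_nonneg _) ?_ h0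
    filter_upwards [eventually_ge_atTop 1] with N hN
    exact riemann h hN
  have hlim1 : Tendsto (fun N : ℕ =>
      (∑ m ∈ range (4 * N), (E (m + 1) - E m) * G (((m + 1 : ℕ) : ℝ) / N)) / N) atTop
      (𝓝 0) := by
    rw [Metric.tendsto_atTop]
    intro δ hδ
    set ε : ℝ := δ / (32 * (B + 1)) with hε
    have hε0 : 0 < ε := by positivity
    obtain ⟨C, hC0, hC⟩ := small_error (R := R) hw hε0
    obtain ⟨N0, hN0⟩ := exists_nat_gt (8 * B * C / δ)
    refine ⟨max N0 1, fun N hN => ?_⟩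
    have hN1 : 1 ≤ N := (le_max_right _ _).trans hN
    have hNpos : (0 : ℝ) < N := by exact_mod_cast hN1
    have hNN : (N0 : ℝ) ≤ N := by exact_mod_cast (le_max_left _ _).trans hN
    rw [dist_zero_right, norm_div, Complex.norm_natCast, div_lt_iff₀ hNpos]
    have h1 := abel_sum E (fun m : ℕ => G ((m : ℝ) / N)) hE0 (4 * N)
    rw [h1]
    have h2 : G (((4 * N : ℕ) : ℝ) / N) = 0 := by
      apply h.supp
      right
      push_cast
      rw [mul_div_assoc, div_self hNpos.ne', mul_one]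
    rw [h2, mul_zero, zero_sub, norm_neg]
    have h3 : ∀ m ∈ range (4 * N), ‖E m * (G (((m + 1 : ℕ) : ℝ) / N) - G ((m : ℝ) / N))‖ ≤
        (ε * (4 * N) + C) * (B * (1 / N)) := by
      intro m hm
      rw [mem_range] at hm
      rw [norm_mul]
      apply mul_le_mul _ _ (norm_nonneg _) (by positivity)
      · simp only [hE]
        rw [Complex.norm_real, Real.norm_eq_abs]
        refine (hC m).trans ?_
        have : (m : ℝ) ≤ 4 * N := by exact_mod_cast hm.le
        have := mul_le_mul_of_nonneg_left this hε0.le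
        linarith
      · refine (h.lip _ _).trans ?_
        apply mul_le_mul_of_nonneg_left _ hB
        apply le_of_eq
        have h5 : ((m + 1 : ℕ) : ℝ) / N - (m : ℝ) / N = 1 / N := by
          push_cast
          ring
        rw [h5, abs_of_pos (by positivity)]
    refine lt_of_le_of_lt ((norm_sum_le _ _).trans (Finset.sum_le_sum h3)) ?_
    rw [Finset.sum_const, card_range, nsmul_eq_mul]
    push_cast
    have h4 : 4 * (N : ℝ) * ((ε * (4 * N) + C) * (B * (1 / N))) =
        16 * (B * ε) * N + 4 * B * C := by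
      field_simp
      ring
    rw [h4]
    have h5 : B * ε ≤ δ / 32 := by
      rw [hε, mul_div_assoc', div_le_div_iff₀ (by positivity) (by norm_num)]
      nlinarith
    have h6 : 8 * B * C < δ * N := by
      have : 8 * B * C / δ < N := lt_of_lt_of_le hN0 hNN
      rw [div_lt_iff₀ hδ] at this
      linarith
    nlinarith
  have := hlim1.add hlim2
  rw [zero_add] at this
  refine this.congr fun N => ?_
  rw [hsplit N]

/-- N8: the mean value of the number of ideals with a Lipschitz weight. -/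
theorem kap : Kap := by
  intro K _ _
  refine ⟨dedekindZeta_residue K, dedekindZeta_residue_pos K, ?_⟩
  intro B G hG
  have h1 : Tendsto (fun n : ℕ => (∑ k ∈ Icc 1 n, (idc K k : ℝ)) / (n : ℝ)) atTop
      (𝓝 (dedekindZeta_residue K)) := Pool.TP.PrimeSum.tendsto_avg
  have h2 := avg h1 hG
  simpa using h2

end Pool.Agent.Helper67.NF
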