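import Pool.Agent.Helper18.NF.StA
import Pool.Agent.Helper67.NF.Tent
import Pool.Agent.Helper44.BV.TypeOne

/-!
# Project NF: Type I sums for systems
-/

set_option autoImplicit false

open Finset Filter Topology
open Pool.Agent.Helper18.BV
open Pool.Agent.Helper44.BV (sum_antidiagonal IsWt_lip IsWt_bdd IsWt_zero_le IsWt_zero_ge)
open scoped ArithmeticFunction.vonMangoldt

namespace Pool.Agent.Helper67.NF

open Pool.Agent.Helper18.NF

/-- the inner sum -/
theorem inner_bound {n : ℕ} {r L : ArithmeticFunction ℝ} {κ : ℝ} (h : IsSys n r L κ) {C0 : ℝ}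
    (hC0 : 0 < C0)
    (hchar : ∀ (q : ℕ) [NeZero q] (χ : DirichletCharacter ℂ q), χ ≠ 1 →
      ∀ (B T : ℝ) (G : ℝ → ℂ), IsTest B G → 1 ≤ T →
        ‖∑ m ∈ Icc 1 ⌊4 * T⌋₊, (r m : ℂ) * χ (m : ZMod q) * G (m / T)‖ ≤
          C0 * B * (q : ℝ) ^ n * T ^ (1 - 1 / (n : ℝ)))
    {g : ℝ → ℝ} (hg : IsWt g) {Gb Lg : ℝ} (hGb : 0 < Gb) (hLg : 0 < Lg)
    (hG : ∀ v, |g v| ≤ Gb) (hL : ∀ u v, |g u - g v| ≤ Lg * |u - v|)
    {x : ℝ} (hx : 3 ≤ x) {q : ℕ} [NeZero q] {χ : DirichletCharacter ℂ q} (hχ : χ ≠ 1)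
    {a : ℝ → ℝ} (ha : ∀ y, 1 ≤ y → y ≤ 4 * x → |a y| ≤ 3 * Real.log x)
    (ha' : ∀ y z, 1 ≤ y → 1 ≤ z → |a y - a z| ≤ |Real.log y - Real.log z|) (ha1 : |a 1| ≤ 1)
    {m : ℕ} (hm : 1 ≤ m) :
    ‖∑ k ∈ Icc 1 (⌊x⌋₊ / m), (r k : ℂ) * χ (k : ZMod q) *
      ((a k * g (Real.log (m * k) / Real.log x) / k : ℝ) : ℂ)‖ ≤
      (Gb + 4 * (C0 * (12 * Gb + 3 * Lg)) / (1 - (2 : ℝ) ^ (-(1 / (n : ℝ))))) * Real.log x *
        (q : ℝ) ^ n * (m / x ^ (1 / 2 : ℝ)) ^ (1 / (n : ℝ)) := by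
  have hn := h.pos
  have hn0 : (0 : ℝ) < n := by exact_mod_cast hn
  have hn1 : (1 : ℝ) ≤ n := by exact_mod_cast hn
  have hx0 : 0 < x := by linarith
  have hlx : 1 ≤ Real.log x := by
    rw [Real.le_log_iff_exp_le hx0]
    exact (Real.exp_one_lt_d9.le.trans (by norm_num)).trans hx
  have hlx0 : 0 < Real.log x := by linarith
  have hm0 : (0 : ℝ) < m := by exact_mod_cast hm
  have hm1 : (1 : ℝ) ≤ m := by exact_mod_cast hm
  set N := ⌊x⌋₊ with hN
  have hNx : (N : ℝ) ≤ x := Nat.floor_le hx0.le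
  have hxN : x < N + 1 := Nat.lt_floor_add_one x
  have hq0 : 0 < q := Nat.pos_of_ne_zero (NeZero.ne q)
  have hq1 : (1 : ℝ) ≤ (q : ℝ) ^ n := one_le_pow₀ (by exact_mod_cast hq0)
  set θ : ℝ := (2 : ℝ) ^ (-(1 / (n : ℝ))) with hθ
  have hθ0 : 0 < θ := by positivity
  have hθ1 : θ < 1 := Real.rpow_lt_one_of_one_lt_of_neg (by norm_num) (by
    have : 0 < 1 / (n : ℝ) := by positivity
    linarith)
  -- the weight function
  set F : ℝ → ℝ := fun y => a y * g (Real.log (m * y) / Real.log x) / y with hF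
  have hFhi : ∀ y : ℝ, x ≤ m * y → F y = 0 := by
    intro y hy
    simp only [hF]
    rw [IsWt_zero_ge hg]
    · simp
    · rw [le_div_iff₀ hlx0, one_mul]
      exact Real.log_le_log hx0 hy
  have hFlo : ∀ y : ℝ, 0 < y → m * y ≤ x ^ (1 / 2 : ℝ) → F y = 0 := by
    intro y hy0 hy
    simp only [hF]
    rw [IsWt_zero_le hg]
    · simp
    · rw [div_le_iff₀ hlx0, ← Real.log_rpow hx0]
      exact Real.log_le_log (by positivity) hy
  -- the test functions
  set Gj : ℕ → ℝ → ℝ := fun j y => tent y * F (2 ^ j * y) with hGj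
  have hGj1 : ∀ j y, y ≤ 1 → Gj j y = 0 := fun j y hy => by
    simp only [hGj]; rw [tent_zero_of_le hy, zero_mul]
  have hGj4 : ∀ j y, 4 ≤ y → Gj j y = 0 := fun j y hy => by
    simp only [hGj]; rw [tent_zero_of_ge hy, zero_mul]
  have hLB : ∀ j : ℕ, (2 : ℝ) ^ j ≤ x →
      IsTest ((12 * Gb + 3 * Lg) * Real.log x / 2 ^ j) (fun y => (Gj j y : ℂ)) := by
    intro j hj
    have hp0 : (0 : ℝ) < 2 ^ j := by positivity
    have hp1 : (1 : ℝ) ≤ 2 ^ j := one_le_pow₀ (by norm_num)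
    have e1 : LB (fun y => a (2 ^ j * y)) (3 * Real.log x) 1 := by
      refine ⟨by positivity, by norm_num, ?_, ?_⟩
      · intro y hy
        apply ha
        · nlinarith [hy.1]
        · nlinarith [hy.1, hy.2]
      · intro y hy z hz
        refine (ha' _ _ (by nlinarith [hy.1]) (by nlinarith [hz.1])).trans ?_
        rw [Real.log_mul hp0.ne' (by linarith [hy.1]), Real.log_mul hp0.ne' (by linarith [hz.1]),
          one_mul]
        have h2 : Real.log (2 ^ j) + Real.log y - (Real.log (2 ^ j) + Real.log z) =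
            Real.log y - Real.log z := by ring
        rw [h2]
        exact log_lip hy.1 hz.1
    have e2 : LB (fun y => g (Real.log (m * (2 ^ j * y)) / Real.log x)) Gb Lg := by
      refine ⟨hGb.le, hLg.le, fun y _ => hG _, ?_⟩
      intro y hy z hz
      refine (hL _ _).trans ?_
      apply mul_le_mul_of_nonneg_left _ hLg.le
      have hy0 : y ≠ 0 := by linarith [hy.1]
      have hz0 : z ≠ 0 := by linarith [hz.1]
      rw [← sub_div, abs_div, abs_of_pos hlx0, div_le_iff₀ hlx0,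
        Real.log_mul hm0.ne' (by positivity), Real.log_mul hm0.ne' (by positivity),
        Real.log_mul hp0.ne' hy0, Real.log_mul hp0.ne' hz0]
      have h1 := log_lip hy.1 hz.1
      have h2 : Real.log m + (Real.log (2 ^ j) + Real.log y) -
          (Real.log m + (Real.log (2 ^ j) + Real.log z)) = Real.log y - Real.log z := by ring
      rw [h2]
      exact h1.trans (le_mul_of_one_le_right (abs_nonneg _) hlx)
    have e3 := (LB_tent.mul (e1.mul (e2.mul LB_inv)))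
    have e4 := e3.isTest (fun y hy => by rw [tent_zero_of_le hy, zero_mul])
      (fun y hy => by rw [tent_zero_of_ge hy, zero_mul])
    have e5 : (fun y => (Gj j y : ℂ)) = fun y => (((2 : ℝ) ^ j)⁻¹ : ℂ) *
        ((tent y * (a (2 ^ j * y) * (g (Real.log (m * (2 ^ j * y)) / Real.log x) * y⁻¹)) : ℝ)
          : ℂ) := by
      funext y
      simp only [hGj, hF]
      push_cast
      rw [div_eq_mul_inv, mul_inv]
      ring
    rw [e5]
    constructor
    · intro y z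
      rw [← mul_sub, norm_mul]
      have h1 := e4.lip y z
      have h2 : ‖(((2 : ℝ) ^ j)⁻¹ : ℂ)‖ = ((2 : ℝ) ^ j)⁻¹ := by
        rw [norm_inv, norm_pow]
        simp
      rw [h2]
      have h3 : (1 : ℝ) * (3 * Real.log x * (Gb * 1 + Lg * 1) + 1 * (Gb * 1)) +
          2 * (3 * Real.log x * (Gb * 1)) ≤ (12 * Gb + 3 * Lg) * Real.log x := by
        nlinarith
      have h4 : ((2 : ℝ) ^ j)⁻¹ * ‖((tent y * (a (2 ^ j * y) *
          (g (Real.log (m * (2 ^ j * y)) / Real.log x) * y⁻¹)) : ℝ) : ℂ) -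
          ((tent z * (a (2 ^ j * z) *
          (g (Real.log (m * (2 ^ j * z)) / Real.log x) * z⁻¹)) : ℝ) : ℂ)‖ ≤
          ((2 : ℝ) ^ j)⁻¹ * ((12 * Gb + 3 * Lg) * Real.log x * |y - z|) := by
        apply mul_le_mul_of_nonneg_left _ (by positivity)
        exact h1.trans (mul_le_mul_of_nonneg_right h3 (abs_nonneg _))
      refine h4.trans (le_of_eq ?_)
      field_simp
    · intro y hy
      rw [e4.supp y hy, mul_zero]
  -- vanishing
  have hGz1 : ∀ j : ℕ, ¬ (2 : ℝ) ^ j ≤ x → ∀ y, Gj j y = 0 := by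
    intro j hj y
    push Not at hj
    rcases le_or_gt y 1 with hy | hy
    · exact hGj1 j y hy
    · simp only [hGj]
      rw [hFhi, mul_zero]
      have : x ≤ 2 ^ j * y := by nlinarith
      nlinarith
  have hGz2 : ∀ j : ℕ, ¬ x ^ (1 / 2 : ℝ) / (4 * m) < 2 ^ j → ∀ y, Gj j y = 0 := by
    intro j hj y
    push Not at hj
    rcases le_or_gt y 1 with hy | hy
    · exact hGj1 j y hy
    rcases le_or_gt 4 y with hy4 | hy4
    · exact hGj4 j y hy4
    · simp only [hGj]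
      have hp0 : (0 : ℝ) < 2 ^ j := by positivity
      rw [hFlo _ (by positivity), mul_zero]
      rw [le_div_iff₀ (by positivity)] at hj
      have : m * (2 ^ j * y) ≤ 2 ^ j * (4 * m) := by
        have := mul_le_mul_of_nonneg_left hy4.le (mul_nonneg hm0.le hp0.le)
        nlinarith
      linarith
  -- decomposition
  have hdec : ∀ k ∈ Icc 1 (N / m), (r k : ℂ) * χ (k : ZMod q) * ((F k : ℝ) : ℂ) =
      (if k = 1 then (F 1 : ℂ) else 0) +
        ∑ j ∈ range N, (r k : ℂ) * χ (k : ZMod q) * ((Gj j (k / 2 ^ j) : ℝ) : ℂ) := by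
    intro k hk
    rw [mem_Icc] at hk
    have h1 : ∀ j : ℕ, Gj j (k / 2 ^ j) = tent (k / 2 ^ j) * F k := by
      intro j
      simp only [hGj]
      rw [mul_div_cancel₀ _ (by positivity)]
    have h2 : ∑ j ∈ range N, (r k : ℂ) * χ (k : ZMod q) * ((Gj j (k / 2 ^ j) : ℝ) : ℂ) =
        (r k : ℂ) * χ (k : ZMod q) * (((∑ j ∈ range N, tent (k / 2 ^ j)) * F k : ℝ) : ℂ) := by
      rw [Finset.sum_mul, Complex.ofReal_sum, Finset.mul_sum]
      exact Finset.sum_congr rfl fun j _ => by rw [h1 j]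
    rw [h2]
    rcases Nat.lt_or_ge k 2 with hk2 | hk2
    · have hk1 : k = 1 := by omega
      subst hk1
      have h3 : ∑ j ∈ range N, tent (((1 : ℕ) : ℝ) / 2 ^ j) = 0 := by
        apply Finset.sum_eq_zero
        intro j _
        apply tent_zero_of_le
        rw [div_le_iff₀ (by positivity), one_mul, Nat.cast_one]
        exact one_le_pow₀ (by norm_num)
      rw [h3, h.one]
      simp
    · have h3 : k < 2 ^ N := by
        have h4 : k ≤ N := hk.2.trans (Nat.div_le_self N m)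
        exact lt_of_le_of_lt h4 Nat.lt_two_pow_self
      rw [tent_sum hk2 h3, if_neg (by omega), one_mul, zero_add]
  have hmain : ∑ k ∈ Icc 1 (N / m), (r k : ℂ) * χ (k : ZMod q) * ((F k : ℝ) : ℂ) =
      (∑ k ∈ Icc 1 (N / m), if k = 1 then (F 1 : ℂ) else 0) +
        ∑ j ∈ range N, ∑ k ∈ Icc 1 ⌊4 * (2 : ℝ) ^ j⌋₊,
          (r k : ℂ) * χ (k : ZMod q) * ((Gj j (k / 2 ^ j) : ℝ) : ℂ) := by
    rw [Finset.sum_congr rfl hdec, Finset.sum_add_distrib, Finset.sum_comm]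
    congr 1
    refine Finset.sum_congr rfl fun j _ => ?_
    apply Finset.sum_congr_of_eq_on_inter
    · intro k hk hk'
      rw [mem_Icc] at hk
      rw [mem_Icc, not_and] at hk'
      have h1 := hk' hk.1
      rw [not_le, Nat.floor_lt (by positivity)] at h1
      rw [hGj4, Complex.ofReal_zero, mul_zero]
      rw [le_div_iff₀ (by positivity)]
      exact h1.le
    · intro k hk hk'
      rw [mem_Icc] at hk
      rw [mem_Icc, not_and] at hk'
      have h1 := hk' hk.1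
      rw [not_le] at h1
      have h2 : N < m * k := by
        have := (Nat.div_lt_iff_lt_mul (by omega : 0 < m)).1 h1
        rw [mul_comm] at this; exact this
      have h3 : ((N + 1 : ℕ) : ℝ) ≤ ((m * k : ℕ) : ℝ) := by exact_mod_cast h2
      push_cast at h3
      simp only [hGj]
      rw [mul_div_cancel₀ _ (by positivity), hFhi _ (by linarith), mul_zero, Complex.ofReal_zero,
        mul_zero]
    · intro k _ _
      rfl
  -- the first term
  set z : ℝ := m / x ^ (1 / 2 : ℝ) with hz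
  have hz0 : 0 < z := by positivity
  have hfirst : ‖∑ k ∈ Icc 1 (N / m), if k = 1 then (F 1 : ℂ) else 0‖ ≤
      Gb * Real.log x * (q : ℝ) ^ n * z ^ (1 / (n : ℝ)) := by
    have h1 : ‖(F 1 : ℂ)‖ ≤ Gb * Real.log x * (q : ℝ) ^ n * z ^ (1 / (n : ℝ)) := by
      rw [Complex.norm_real, Real.norm_eq_abs]
      rcases le_or_gt ((m : ℝ) * 1) (x ^ (1 / 2 : ℝ)) with h2 | h2
      · rw [hFlo 1 one_pos h2, abs_zero]
        positivity
      · have h3 : |F 1| ≤ Gb := by
          simp only [hF]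
          rw [div_one, abs_mul]
          calc |a 1| * |g (Real.log (m * 1) / Real.log x)| ≤ 1 * Gb :=
                mul_le_mul ha1 (hG _) (abs_nonneg _) (by norm_num)
            _ = Gb := one_mul _
        have h4 : 1 ≤ z ^ (1 / (n : ℝ)) := by
          apply Real.one_le_rpow _ (by positivity)
          rw [hz, le_div_iff₀ (by positivity), one_mul]
          linarith
        calc |F 1| ≤ Gb * 1 * 1 * 1 := by linarith
          _ ≤ Gb * Real.log x * (q : ℝ) ^ n * z ^ (1 / (n : ℝ)) := by gcongr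
    rw [Finset.sum_ite_eq']
    split_ifs
    · exact h1
    · rw [norm_zero]; positivity
  -- the other terms
  have hother : ∀ j ∈ range N, ‖∑ k ∈ Icc 1 ⌊4 * (2 : ℝ) ^ j⌋₊,
      (r k : ℂ) * χ (k : ZMod q) * ((Gj j (k / 2 ^ j) : ℝ) : ℂ)‖ ≤
      if x ^ (1 / 2 : ℝ) / (4 * m) < 2 ^ j then
        C0 * (12 * Gb + 3 * Lg) * Real.log x * (q : ℝ) ^ n * θ ^ j else 0 := by
    intro j _
    by_cases hj : x ^ (1 / 2 : ℝ) / (4 * m) < 2 ^ j
    · rw [if_pos hj]
      by_cases hj2 : (2 : ℝ) ^ j ≤ x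
      · have h1 := hchar q χ hχ _ (2 ^ j) _ (hLB j hj2) (one_le_pow₀ (by norm_num))
        refine h1.trans (le_of_eq ?_)
        have h2 : ((2 : ℝ) ^ j) ^ (1 - 1 / (n : ℝ)) = 2 ^ j * θ ^ j := by
          rw [sub_eq_add_neg, Real.rpow_add (by positivity), Real.rpow_one]
          congr 1
          rw [hθ, ← Real.rpow_natCast, ← Real.rpow_natCast, ← Real.rpow_mul (by norm_num),
            ← Real.rpow_mul (by norm_num), mul_comm]
        rw [h2]
        field_simp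
      · have h1 : ∑ k ∈ Icc 1 ⌊4 * (2 : ℝ) ^ j⌋₊,
            (r k : ℂ) * χ (k : ZMod q) * ((Gj j (k / 2 ^ j) : ℝ) : ℂ) = 0 := by
          apply Finset.sum_eq_zero
          intro k _
          rw [hGz1 j hj2, Complex.ofReal_zero, mul_zero]
        rw [h1, norm_zero]
        positivity
    · rw [if_neg hj]
      have h1 : ∑ k ∈ Icc 1 ⌊4 * (2 : ℝ) ^ j⌋₊,
          (r k : ℂ) * χ (k : ZMod q) * ((Gj j (k / 2 ^ j) : ℝ) : ℂ) = 0 := by
        apply Finset.sum_eq_zero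
        intro k _
        rw [hGz2 j hj, Complex.ofReal_zero, mul_zero]
      rw [h1, norm_zero]
  have hsum : ∑ j ∈ range N, (if x ^ (1 / 2 : ℝ) / (4 * m) < 2 ^ j then
        C0 * (12 * Gb + 3 * Lg) * Real.log x * (q : ℝ) ^ n * θ ^ j else 0) ≤
      C0 * (12 * Gb + 3 * Lg) * Real.log x * (q : ℝ) ^ n *
        (4 * z ^ (1 / (n : ℝ)) / (1 - θ)) := by
    rw [← Finset.sum_filter, ← Finset.mul_sum]
    apply mul_le_mul_of_nonneg_left _ (by positivity)
    refine (geom_tail hn (by positivity) N).trans ?_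
    rw [← hθ]
    apply div_le_div_of_nonneg_right _ (by linarith)
    have h1 : (x ^ (1 / 2 : ℝ) / (4 * m)) ^ (-(1 / (n : ℝ))) = (4 * z) ^ (1 / (n : ℝ)) := by
      rw [Real.rpow_neg (by positivity), ← Real.inv_rpow (by positivity)]
      congr 1
      rw [hz]
      field_simp
    rw [h1, Real.mul_rpow (by norm_num) hz0.le]
    apply mul_le_mul_of_nonneg_right _ (by positivity)
    calc (4 : ℝ) ^ (1 / (n : ℝ)) ≤ 4 ^ (1 : ℝ) := by
          apply Real.rpow_le_rpow_of_exponent_le (by norm_num)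
          rw [div_le_iff₀ hn0]; linarith
      _ = 4 := Real.rpow_one 4
  have hgoal : ∑ k ∈ Icc 1 (N / m), (r k : ℂ) * χ (k : ZMod q) *
      ((a k * g (Real.log (m * k) / Real.log x) / k : ℝ) : ℂ) =
      ∑ k ∈ Icc 1 (N / m), (r k : ℂ) * χ (k : ZMod q) * ((F k : ℝ) : ℂ) := rfl
  rw [hgoal, hmain]
  refine (norm_add_le _ _).trans ?_
  have h1 := (norm_sum_le _ _).trans ((Finset.sum_le_sum hother).trans hsum)
  have h2 := add_le_add hfirst h1
  refine h2.trans (le_of_eq ?_)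
  have h3 : 1 - θ ≠ 0 := by linarith
  field_simp

/-- the sum over both variables -/
theorem typeOne_gen {n : ℕ} {r L : ArithmeticFunction ℝ} {κ : ℝ} (h : IsSys n r L κ) {C0 : ℝ}
    (hC0 : 0 < C0)
    (hchar : ∀ (q : ℕ) [NeZero q] (χ : DirichletCharacter ℂ q), χ ≠ 1 →
      ∀ (B T : ℝ) (G : ℝ → ℂ), IsTest B G → 1 ≤ T →
        ‖∑ m ∈ Icc 1 ⌊4 * T⌋₊, (r m : ℂ) * χ (m : ZMod q) * G (m / T)‖ ≤
          C0 * B * (q : ℝ) ^ n * T ^ (1 - 1 / (n : ℝ)))
    {g : ℝ → ℝ} (hg : IsWt g) {Gb Lg : ℝ} (hGb : 0 < Gb) (hLg : 0 < Lg)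
    (hG : ∀ v, |g v| ≤ Gb) (hL : ∀ u v, |g u - g v| ≤ Lg * |u - v|)
    {x : ℝ} (hx : 3 ≤ x) {q : ℕ} [NeZero q] {χ : DirichletCharacter ℂ q} (hχ : χ ≠ 1)
    {a : ℝ → ℝ} (ha : ∀ y, 1 ≤ y → y ≤ 4 * x → |a y| ≤ 3 * Real.log x)
    (ha' : ∀ y z, 1 ≤ y → 1 ≤ z → |a y - a z| ≤ |Real.log y - Real.log z|) (ha1 : |a 1| ≤ 1)
    (M : ℕ) (c : ArithmeticFunction ℂ) (Kc : ℝ) (hKc : ∑ m ∈ Icc 1 M, ‖c m‖ / m ≤ Kc)
    (hc0 : ∀ m, M < m → c m = 0) (z : ArithmeticFunction ℂ)
    (hz : ∀ k : ℕ, z k = (r k : ℂ) * (a k : ℂ)) :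
    ‖SS (c * z : ArithmeticFunction ℂ) g x χ‖ ≤
      (Gb + 4 * (C0 * (12 * Gb + 3 * Lg)) / (1 - (2 : ℝ) ^ (-(1 / (n : ℝ))))) *
        (q : ℝ) ^ n * (M : ℝ) ^ (1 / (n : ℝ)) * Kc * Real.log x *
        x ^ (-(1 / (2 * n : ℝ))) := by
  have hn := h.pos
  have hn0 : (0 : ℝ) < n := by exact_mod_cast hn
  have hx0 : 0 < x := by linarith
  have hlx0 : 0 < Real.log x := Real.log_pos (by linarith)
  set N := ⌊x⌋₊ with hN
  set C1 : ℝ := Gb + 4 * (C0 * (12 * Gb + 3 * Lg)) / (1 - (2 : ℝ) ^ (-(1 / (n : ℝ)))) with hC1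
  have hθ1 : (2 : ℝ) ^ (-(1 / (n : ℝ))) < 1 :=
    Real.rpow_lt_one_of_one_lt_of_neg (by norm_num) (by
      have : 0 < 1 / (n : ℝ) := by positivity
      linarith)
  have hC1pos : 0 < C1 := by
    have : 0 < 1 - (2 : ℝ) ^ (-(1 / (n : ℝ))) := by linarith
    positivity
  have h1 : SS (c * z : ArithmeticFunction ℂ) g x χ =
      ∑ m ∈ Icc 1 N, c m * χ (m : ZMod q) / m *
        ∑ k ∈ Icc 1 (N / m), (r k : ℂ) * χ (k : ZMod q) *
          ((a k * g (Real.log (m * k) / Real.log x) / k : ℝ) : ℂ) := by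
    unfold SS
    rw [← hN]
    have h2 : ∀ n ∈ Icc 1 N, (c * z : ArithmeticFunction ℂ) n * χ (n : ZMod q) *
        ((wt g x n : ℝ) : ℂ) = ∑ p ∈ n.divisorsAntidiagonal,
          c p.1 * z p.2 * χ ((p.1 * p.2 : ℕ) : ZMod q) * ((wt g x (p.1 * p.2) : ℝ) : ℂ) := by
      intro n _
      rw [ArithmeticFunction.mul_apply, Finset.sum_mul, Finset.sum_mul]
      refine Finset.sum_congr rfl fun p hp => ?_
      rw [(Nat.mem_divisorsAntidiagonal.1 hp).1]
    rw [Finset.sum_congr rfl h2, sum_antidiagonal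
      (fun a b => c a * z b * χ ((a * b : ℕ) : ZMod q) * ((wt g x (a * b) : ℝ) : ℂ))]
    refine Finset.sum_congr rfl fun m hm => ?_
    rw [Finset.mul_sum]
    refine Finset.sum_congr rfl fun k hk => ?_
    rw [hz k]
    unfold wt
    rw [Nat.cast_mul (α := ZMod q), map_mul]
    push_cast
    ring
  rw [h1]
  have hE : ∀ m ∈ Icc 1 N, ‖c m * χ (m : ZMod q) / m *
        ∑ k ∈ Icc 1 (N / m), (r k : ℂ) * χ (k : ZMod q) *
          ((a k * g (Real.log (m * k) / Real.log x) / k : ℝ) : ℂ)‖ ≤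
      ‖c m‖ / m * (C1 * Real.log x * (q : ℝ) ^ n * ((M : ℝ) ^ (1 / (n : ℝ)) *
        x ^ (-(1 / (2 * n : ℝ))))) := by
    intro m hm
    rw [mem_Icc] at hm
    have hm0 : (0 : ℝ) < m := by exact_mod_cast hm.1
    rcases Nat.lt_or_ge M m with hmM | hmM
    · rw [hc0 m hmM]
      simp
    have h2 := inner_bound h hC0 hchar hg hGb hLg hG hL hx hχ ha ha' ha1 hm.1
    rw [← hC1, ← hN] at h2
    have h3 : ((m : ℝ) / x ^ (1 / 2 : ℝ)) ^ (1 / (n : ℝ)) ≤
        (M : ℝ) ^ (1 / (n : ℝ)) * x ^ (-(1 / (2 * n : ℝ))) := by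
      rw [Real.div_rpow hm0.le (by positivity), div_eq_mul_inv, ← Real.rpow_mul hx0.le,
        ← Real.rpow_neg hx0.le]
      have h4 : -(1 / 2 * (1 / (n : ℝ))) = -(1 / (2 * n : ℝ)) := by
        field_simp
      rw [h4]
      apply mul_le_mul_of_nonneg_right _ (by positivity)
      exact Real.rpow_le_rpow hm0.le (by exact_mod_cast hmM) (by positivity)
    rw [norm_mul, norm_div, norm_mul, Complex.norm_natCast]
    have h5 : ‖c m‖ * ‖χ (m : ZMod q)‖ / m ≤ ‖c m‖ / m := by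
      apply div_le_div_of_nonneg_right _ hm0.le
      exact mul_le_of_le_one_right (norm_nonneg _) (χ.norm_le_one _)
    apply mul_le_mul h5 (h2.trans _) (norm_nonneg _) (by positivity)
    exact mul_le_mul_of_nonneg_left h3 (by positivity)
  refine (norm_sum_le _ _).trans ((Finset.sum_le_sum hE).trans ?_)
  rw [← Finset.sum_mul]
  have h6 : ∑ m ∈ Icc 1 N, ‖c m‖ / m ≤ Kc := by
    refine le_trans ?_ hKc
    rw [← Finset.sum_filter_add_sum_filter_not (Icc 1 N) (fun m => m ≤ M)]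
    have h7 : ∑ m ∈ (Icc 1 N).filter (fun m => ¬ m ≤ M), ‖c m‖ / m = 0 := by
      apply Finset.sum_eq_zero
      intro m hm
      rw [mem_filter] at hm
      rw [hc0 m (by omega)]
      simp
    rw [h7, add_zero]
    apply Finset.sum_le_sum_of_subset_of_nonneg
    · intro m hm
      rw [mem_filter, mem_Icc] at hm
      rw [mem_Icc]
      exact ⟨hm.1.1, hm.2⟩
    · intro m _ _
      positivity
  refine (mul_le_mul_of_nonneg_right h6 (by positivity)).trans (le_of_eq ?_)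
  ring

/-- B1: Type I sums for systems. -/
theorem typeOneF : TypeOneF := by
  intro n r L κ h g hg
  obtain ⟨C0, hC0, hchar⟩ := h.char
  obtain ⟨Gb, hGb, hG⟩ := IsWt_bdd hg
  obtain ⟨Lg, hLg, hL⟩ := IsWt_lip hg
  have hn := h.pos
  have hn0 : (0 : ℝ) < n := by exact_mod_cast hn
  have hθ1 : (2 : ℝ) ^ (-(1 / (n : ℝ))) < 1 :=
    Real.rpow_lt_one_of_one_lt_of_neg (by norm_num) (by
      have : 0 < 1 / (n : ℝ) := by positivity
      linarith)
  refine ⟨Gb + 4 * (C0 * (12 * Gb + 3 * Lg)) / (1 - (2 : ℝ) ^ (-(1 / (n : ℝ)))), ?_, ?_⟩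
  · have : 0 < 1 - (2 : ℝ) ^ (-(1 / (n : ℝ))) := by linarith
    positivity
  intro x hx q _ χ hχ M c Kc hKc hc0
  have hx0 : 0 < x := by linarith
  have hlx : 1 ≤ Real.log x := by
    rw [Real.le_log_iff_exp_le hx0]
    exact (Real.exp_one_lt_d9.le.trans (by norm_num)).trans hx
  have hlog : ∀ y : ℝ, 1 ≤ y → y ≤ 4 * x → |Real.log y| ≤ 3 * Real.log x := by
    intro y hy1 hy
    rw [abs_of_nonneg (Real.log_nonneg hy1)]
    have h1 := Real.log_le_log (by linarith) hy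
    rw [Real.log_mul (by norm_num) hx0.ne'] at h1
    have h2 : Real.log 4 = 2 * Real.log 2 := by
      rw [show (4 : ℝ) = 2 ^ 2 by norm_num, Real.log_pow]
      norm_num
    have := Real.log_two_lt_d9
    linarith
  constructor
  · exact typeOne_gen h hC0 hchar hg hGb hLg hG hL hx hχ (a := fun _ => 1)
      (fun y _ _ => by rw [abs_one]; linarith) (fun y z _ _ => by simp) (by simp) M c Kc hKc hc0
      (cx r) (fun k => by rw [cx_apply]; simp)
  · exact typeOne_gen h hC0 hchar hg hGb hLg hG hL hx hχ (a := Real.log) hlog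
      (fun y z _ _ => le_rfl) (by simp) M c Kc hKc hc0
      (D (cx r)) (fun k => by rw [D_apply, cx_apply])

end Pool.Agent.Helper67.NF
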